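import Pool.Agent.Helper81_LQD.RWSd

/-!
# RWS: the random walk
-/

set_option autoImplicit false
set_option linter.unusedSectionVars false

open scoped BigOperators

noncomputable section

namespace Pool.Agent.LE.QD.H81

open Pool.Agent.BED Pool.Agent.LE.IR Pool.Agent.LE.QD
open Pool.Agent.LE.IR.H54

/-- the partial sums -/
theorem partial_bd (n : ℕ) (hn : 1 ≤ n) (d : ℕ) (hd : 3 ≤ d) (S : ℕ → ℝ) (A B₁ B₂ θ : ℝ)
    (hA : 0 ≤ A) (hB₁ : 0 ≤ B₁) (hB₂ : 0 ≤ B₂) (hθ0 : 0 ≤ θ) (hθ1 : θ < 1)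
    (h1 : ∀ m, S (m + 1) ≤ A)
    (h2 : ∀ m, S (m + 1) ≤ B₁ * θ ^ (m + 1) + B₂ * (1 / Real.sqrt ((m + 1 : ℕ) : ℝ)) ^ d)
    (N : ℕ) :
    ∑ m ∈ Finset.range N, S (m + 1) ≤
      n * A + B₁ * (1 - θ)⁻¹ + 2 * B₂ * (n : ℝ) ^ (1 - (d : ℝ) / 2) := by
  have hn0 : (0 : ℝ) < n := by exact_mod_cast hn
  set r : ℝ := 1 / Real.sqrt n with hr
  have hr0 : 0 < r := by
    have := Real.sqrt_pos.mpr hn0
    positivity
  have h3 : ∀ m, S (m + 1) ≤ (if m < n then A else 0) + B₁ * θ ^ m +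
      (if n ≤ m then B₂ * r ^ (d - 3) * (1 / Real.sqrt ((m + 1 : ℕ) : ℝ)) ^ 3 else 0) := by
    intro m
    have hB : 0 ≤ B₁ * θ ^ m := by positivity
    by_cases hm : m < n
    · rw [if_pos hm, if_neg (by omega)]
      have := h1 m
      linarith
    · rw [if_neg hm, if_pos (by omega)]
      have h4 := h2 m
      have h5 : θ ^ (m + 1) ≤ θ ^ m := pow_le_pow_of_le_one hθ0 hθ1.le (Nat.le_succ m)
      have h6 : B₁ * θ ^ (m + 1) ≤ B₁ * θ ^ m := mul_le_mul_of_nonneg_left h5 hB₁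
      have h7 : (1 / Real.sqrt ((m + 1 : ℕ) : ℝ)) ^ d ≤
          r ^ (d - 3) * (1 / Real.sqrt ((m + 1 : ℕ) : ℝ)) ^ 3 := by
        have h8 : (1 / Real.sqrt ((m + 1 : ℕ) : ℝ)) ^ d =
            (1 / Real.sqrt ((m + 1 : ℕ) : ℝ)) ^ (d - 3) *
              (1 / Real.sqrt ((m + 1 : ℕ) : ℝ)) ^ 3 := by
          rw [← pow_add]
          congr 1
          omega
        rw [h8]
        apply mul_le_mul_of_nonneg_right _ (by positivity)
        apply pow_le_pow_left₀ (by positivity)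
        rw [hr]
        apply one_div_le_one_div_of_le (Real.sqrt_pos.mpr hn0)
        apply Real.sqrt_le_sqrt
        exact_mod_cast (by omega : n ≤ m + 1)
      have h9 := mul_le_mul_of_nonneg_left h7 hB₂
      rw [← mul_assoc] at h9
      linarith
  refine (Finset.sum_le_sum fun m _ => h3 m).trans ?_
  rw [Finset.sum_add_distrib, Finset.sum_add_distrib]
  have t1 : ∑ m ∈ Finset.range N, (if m < n then A else 0) ≤ n * A := by
    rw [← Finset.sum_filter, Finset.sum_const, nsmul_eq_mul]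
    apply mul_le_mul_of_nonneg_right _ hA
    have h4 : ((Finset.range N).filter fun m => m < n) ⊆ Finset.range n := by
      intro m hm
      rw [Finset.mem_filter] at hm
      exact Finset.mem_range.mpr hm.2
    have h5 := Finset.card_le_card h4
    rw [Finset.card_range] at h5
    exact_mod_cast h5
  have t2 : ∑ m ∈ Finset.range N, B₁ * θ ^ m ≤ B₁ * (1 - θ)⁻¹ := by
    rw [← Finset.mul_sum]
    apply mul_le_mul_of_nonneg_left _ hB₁
    have h4 := (summable_geometric_of_lt_one hθ0 hθ1).sum_le_tsum (Finset.range N)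
      (fun m _ => by positivity)
    rwa [tsum_geometric_of_lt_one hθ0 hθ1] at h4
  have t3 : ∑ m ∈ Finset.range N, (if n ≤ m then B₂ * r ^ (d - 3) *
      (1 / Real.sqrt ((m + 1 : ℕ) : ℝ)) ^ 3 else 0) ≤ 2 * B₂ * (n : ℝ) ^ (1 - (d : ℝ) / 2) := by
    rw [← Finset.sum_filter]
    have h4 : ((Finset.range N).filter fun m => n ≤ m) = Finset.Ico n N := by
      ext m
      rw [Finset.mem_filter, Finset.mem_range, Finset.mem_Ico]
      exact and_comm
    rw [h4, ← Finset.mul_sum]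
    have h5 : ∑ m ∈ Finset.Ico n N, (1 / Real.sqrt ((m + 1 : ℕ) : ℝ)) ^ 3 =
        ∑ m ∈ Finset.Ico (n + 1) (N + 1), (1 / Real.sqrt (m : ℝ)) ^ 3 :=
      Finset.sum_Ico_add' (fun m : ℕ => (1 / Real.sqrt (m : ℝ)) ^ 3) n N 1
    rw [h5]
    have h6 := tail_sum n hn (N + 1)
    have h7 : B₂ * r ^ (d - 3) * ∑ m ∈ Finset.Ico (n + 1) (N + 1), (1 / Real.sqrt (m : ℝ)) ^ 3 ≤
        B₂ * r ^ (d - 3) * (2 * r) := mul_le_mul_of_nonneg_left h6 (by positivity)
    refine h7.trans (le_of_eq ?_)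
    have h8 : r ^ (d - 3) * r = (n : ℝ) ^ (1 - (d : ℝ) / 2) := by
      rw [← pow_succ, hr, one_div, Real.sqrt_eq_rpow, ← Real.rpow_neg hn0.le,
        ← Real.rpow_natCast, ← Real.rpow_mul hn0.le]
      congr 1
      have h9 : ((d - 3 + 1 : ℕ) : ℝ) = (d : ℝ) - 2 := by
        have : ((d - 3 + 1 : ℕ) : ℝ) = ((d - 3 : ℕ) : ℝ) + 1 := by push_cast; ring
        rw [this, Nat.cast_sub hd]
        push_cast
        ring
      rw [h9]
      ring
    rw [← h8]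
    ring
  linarith

variable {d M : ℕ} [NeZero M]

/-- the Neumann series -/
theorem neu (k : Tor d M → ℝ) (hk0 : ∀ x, 0 ≤ k x) (hks : ∀ x, k (-x) = k x) {v : ℝ}
    (hv : 0 < v) (hθ0 : 0 < v * ∑ x, k x) (hθ1 : v * ∑ x, k x < 1) (φ : Tor d M → ℝ)
    (hφ0 : ∀ x, 0 ≤ φ x ∧ φ x ≤ 1) :
    ∃ f : Tor d M → ℝ, (∀ x, 0 ≤ f x ∧ f x ≤ 1 / (1 - v * ∑ x, k x)) ∧
      (∀ x, f x - v * ∑ y, k (x - y) * f y = φ x) ∧
      HasSum (fun m : ℕ => ∑ x, φ x * (TT k v)^[m + 1] φ x)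
        (v * ∑ x, f x * ∑ y, φ y * k (x - y)) := by
  have hub : ∀ (m : ℕ) (x : Tor d M), 0 ≤ (TT k v)^[m] φ x ∧
      (TT k v)^[m] φ x ≤ (v * ∑ x, k x) ^ m := fun m x => iter_bd k hk0 hv.le hφ0 m x
  have hsum : ∀ x, Summable fun m : ℕ => (TT k v)^[m] φ x := fun x =>
    Summable.of_nonneg_of_le (fun m => (hub m x).1) (fun m => (hub m x).2)
      (summable_geometric_of_lt_one hθ0.le hθ1)
  obtain ⟨f, hf⟩ : ∃ f : Tor d M → ℝ, ∀ x, HasSum (fun m : ℕ => (TT k v)^[m] φ x) (f x) :=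
    ⟨fun x => ∑' m : ℕ, (TT k v)^[m] φ x, fun x => (hsum x).hasSum⟩
  have hhasT : ∀ x, HasSum (fun m : ℕ => (TT k v)^[m + 1] φ x) (TT k v f x) := by
    intro x
    have h1 : HasSum (fun m : ℕ => ∑ y, k (x - y) * (TT k v)^[m] φ y) (∑ y, k (x - y) * f y) :=
      hasSum_sum fun y _ => (hf y).mul_left _
    have h2 := h1.mul_left v
    have h3 : (fun m : ℕ => (TT k v)^[m + 1] φ x) =
        fun m : ℕ => v * ∑ y, k (x - y) * (TT k v)^[m] φ y := by
      funext m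
      rw [Function.iterate_succ_apply']
      rfl
    rw [h3]
    exact h2
  have hfeq : ∀ x, f x = φ x + TT k v f x := by
    intro x
    have h1 := HasSum.zero_add (f := fun m : ℕ => (TT k v)^[m] φ x) (hhasT x)
    exact (hf x).unique h1
  refine ⟨f, fun x => ⟨(hf x).nonneg fun m => (hub m x).1, ?_⟩, fun x => ?_, ?_⟩
  · have h1 := hasSum_geometric_of_lt_one hθ0.le hθ1
    rw [one_div]
    exact hasSum_le (fun m => (hub m x).2) (hf x) h1
  · have h1 := hfeq x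
    show f x - TT k v f x = φ x
    linarith
  · have h1 : v * ∑ x, f x * ∑ y, φ y * k (x - y) = ∑ x, φ x * TT k v f x := by
      unfold TT
      simp only [Finset.mul_sum]
      rw [Finset.sum_comm]
      refine Finset.sum_congr rfl fun y _ => Finset.sum_congr rfl fun x _ => ?_
      have h3 : k (x - y) = k (y - x) := by
        rw [← hks, neg_sub]
      rw [h3]
      ring
    rw [h1]
    exact hasSum_sum fun x _ => (hhasT x).mul_left _

/-- the final computation -/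
theorem fin_calc (d n : ℕ) (a c' l m w θ C C₁ R : ℝ) (ha : 0 ≤ a) (hl : 0 ≤ l) (hm : 0 < m)
    (hw : 0 ≤ w) (hθ : 0 < 1 - θ) (hC : 2 * C₁ ≤ C) (hC0 : 0 < C₁) (hc' : c' = a * l ^ d)
    (hR : 0 ≤ R) :
    n * c' + C₁ * (a ^ 2 * (l ^ d) ^ 2) * (1 / m) ^ d * (1 - θ)⁻¹ +
      2 * (C₁ * (a ^ 2 * (l ^ d) ^ 2) * w ^ d) * R ≤
    c' * (n + C * a * (l * w) ^ d * R + C * a * (l / m) ^ d / (1 - θ)) := by
  have hc0 : 0 ≤ c' := by
    rw [hc']
    positivity
  have e1 : C₁ * (a ^ 2 * (l ^ d) ^ 2) * (1 / m) ^ d * (1 - θ)⁻¹ =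
      c' * (C₁ * a * (l / m) ^ d / (1 - θ)) := by
    rw [hc', div_pow, div_pow, one_pow]
    field_simp
  have e2 : 2 * (C₁ * (a ^ 2 * (l ^ d) ^ 2) * w ^ d) * R =
      c' * ((2 * C₁) * a * (l * w) ^ d * R) := by
    rw [hc', mul_pow]
    ring
  rw [e1, e2]
  have f1 : c' * (C₁ * a * (l / m) ^ d / (1 - θ)) ≤ c' * (C * a * (l / m) ^ d / (1 - θ)) := by
    apply mul_le_mul_of_nonneg_left _ hc0
    apply div_le_div_of_nonneg_right _ hθ.le
    apply mul_le_mul_of_nonneg_right _ (by positivity)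
    apply mul_le_mul_of_nonneg_right _ ha
    linarith
  have f2 : c' * ((2 * C₁) * a * (l * w) ^ d * R) ≤ c' * (C * a * (l * w) ^ d * R) := by
    apply mul_le_mul_of_nonneg_left _ hc0
    apply mul_le_mul_of_nonneg_right _ hR
    apply mul_le_mul_of_nonneg_right _ (by positivity)
    exact mul_le_mul_of_nonneg_right hC ha
  have e3 : c' * (n + C * a * (l * w) ^ d * R + C * a * (l / m) ^ d / (1 - θ)) =
      n * c' + c' * (C * a * (l * w) ^ d * R) + c' * (C * a * (l / m) ^ d / (1 - θ)) := by ring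
  rw [e3]
  linarith

theorem rws : RwsStmt := by
  intro d c hd hc
  have hd1 : 1 ≤ d := by omega
  have hC1 := C1_pos d hd1 c
  refine ⟨max (max (2 * C1 d c) (1 / c)) 1, le_max_right _ _, ?_⟩
  intro M _ k v w L n 𝒜 C' hk0 hks hv hK hvK hw hw1 hgap hCwL _ hn hcov hcard
  classical
  have hM : (0 : ℝ) < M := by exact_mod_cast Nat.pos_of_ne_zero (NeZero.ne M)
  obtain ⟨C, hC⟩ : ∃ C, C = max (max (2 * C1 d c) (1 / c)) 1 := ⟨_, rfl⟩
  rw [← hC] at hCwL ⊢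
  have hC2 : 2 * C1 d c ≤ C := by
    rw [hC]
    exact (le_max_left _ _).trans (le_max_left _ _)
  have hC3 : 1 / c ≤ C := by
    rw [hC]
    exact (le_max_right _ _).trans (le_max_left _ _)
  have hC4 : 1 ≤ C := by
    rw [hC]
    exact le_max_right _ _
  have hL : 1 ≤ L := by
    by_contra h
    have h0 : L = 0 := by omega
    rw [h0] at hCwL
    push_cast at hCwL
    linarith
  have hθ0 : 0 < v * ∑ x, k x := mul_pos hv hK
  obtain ⟨φ, hφ⟩ : ∃ φ : Tor d M → ℝ, ∀ x, φ x = if x ∈ C' then 1 else 0 :=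
    ⟨fun x => if x ∈ C' then 1 else 0, fun x => rfl⟩
  have hφ0 : ∀ x, 0 ≤ φ x ∧ φ x ≤ 1 := by
    intro x
    rw [hφ]
    split_ifs <;> norm_num
  obtain ⟨f, hf1, hf2, hf3⟩ := neu k hk0 hks hv hθ0 hvK φ hφ0
  refine ⟨f, hf1, fun x => ?_, ?_⟩
  · rw [hf2, hφ]
  · have hsumφ : ∀ g : Tor d M → ℝ, ∑ y, φ y * g y = ∑ y ∈ C', g y := by
      intro g
      have h1 : ∀ y, φ y * g y = if y ∈ C' then g y else 0 := by
        intro y
        rw [hφ]
        split_ifs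
        · rw [one_mul]
        · rw [zero_mul]
      rw [Finset.sum_congr rfl fun y _ => h1 y, Finset.sum_ite_mem, Finset.univ_inter]
    have h1 : v * ∑ x, f x * ∑ y ∈ C', k (x - y) = v * ∑ x, f x * ∑ y, φ y * k (x - y) := by
      congr 1
      refine Finset.sum_congr rfl fun x _ => ?_
      rw [hsumφ]
    rw [h1]
    have hcard' : (C'.card : ℝ) = 𝒜.card * (L : ℝ) ^ d := by exact_mod_cast hcard
    have hb1 : ∀ m : ℕ, ∑ x, φ x * (TT k v)^[m + 1] φ x ≤ C'.card := by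
      intro m
      rw [hsumφ]
      have h2 : ∀ x ∈ C', (TT k v)^[m + 1] φ x ≤ 1 := fun x _ =>
        (iter_bd k hk0 hv.le hφ0 (m + 1) x).2.trans (pow_le_one₀ hθ0.le hvK.le)
      have h3 := Finset.sum_le_card_nsmul _ _ _ h2
      rwa [nsmul_eq_mul, mul_one] at h3
    have hS := fun m : ℕ => S_bd hd1 k 𝒜 C' φ hφ hk0 hks hv hK hw hc hgap
        (hC3.trans hCwL) hL hcov (m + 1) (by omega)
    obtain ⟨Z, hZ⟩ : ∃ Z, Z = C1 d c * ((𝒜.card : ℝ) ^ 2 * ((L : ℝ) ^ d) ^ 2) := ⟨_, rfl⟩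
    rw [← hZ] at hS
    have hZ0 : 0 ≤ Z := by
      rw [hZ]
      positivity
    have hb2 : ∀ m : ℕ, ∑ x, φ x * (TT k v)^[m + 1] φ x ≤
        Z * (1 / (M : ℝ)) ^ d * (v * ∑ x, k x) ^ (m + 1) +
        Z * w ^ d * (1 / Real.sqrt ((m + 1 : ℕ) : ℝ)) ^ d := by
      intro m
      refine (hS m).trans ?_
      have h3 : (v * ∑ x, k x) ^ (m + 1) ≤ 1 := pow_le_one₀ hθ0.le hvK.le
      have h4 : 0 ≤ Z * (w ^ d * (1 / Real.sqrt ((m + 1 : ℕ) : ℝ)) ^ d) := by positivity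
      have h5 := mul_le_mul_of_nonneg_left h3 h4
      have h6 : Z * ((v * ∑ x, k x) ^ (m + 1) * ((1 / (M : ℝ)) ^ d +
            w ^ d * (1 / Real.sqrt ((m + 1 : ℕ) : ℝ)) ^ d))
          = Z * (1 / (M : ℝ)) ^ d * (v * ∑ x, k x) ^ (m + 1) +
            Z * (w ^ d * (1 / Real.sqrt ((m + 1 : ℕ) : ℝ)) ^ d) * (v * ∑ x, k x) ^ (m + 1) := by
        ring
      rw [h6, mul_assoc Z (w ^ d)]
      rw [mul_one] at h5
      linarith
    have hlim : ∀ N : ℕ, ∑ m ∈ Finset.range N, ∑ x, φ x * (TT k v)^[m + 1] φ x ≤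
        n * (C'.card : ℝ) + Z * (1 / (M : ℝ)) ^ d * (1 - v * ∑ x, k x)⁻¹ +
          2 * (Z * w ^ d) * (n : ℝ) ^ (1 - (d : ℝ) / 2) := by
      intro N
      exact partial_bd n hn d hd (fun m => ∑ x, φ x * (TT k v)^[m] φ x) _ _ _ (v * ∑ x, k x)
        (Nat.cast_nonneg _) (by positivity) (by positivity) hθ0.le hvK hb1 hb2 N
    have hfin := le_of_tendsto' hf3.tendsto_sum_nat hlim
    refine hfin.trans ?_
    rw [hZ]
    exact fin_calc d n 𝒜.card C'.card L M w (v * ∑ x, k x) C (C1 d c)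
      ((n : ℝ) ^ (1 - (d : ℝ) / 2)) (Nat.cast_nonneg _) (Nat.cast_nonneg _) hM hw.le
      (sub_pos.mpr hvK) hC2 hC1 hcard' (by positivity)

end Pool.Agent.LE.QD.H81
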