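import Pool.Agent.LE.StmtsQE
import Pool.Agent.Helper54_LIR.FTB

/-!
# RWS, part a: a Gauss sum on the cyclic group, a tail sum
-/

set_option autoImplicit false

open scoped BigOperators

noncomputable section

namespace Pool.Agent.LE.QD.H81

/-- a Gauss sum -/
theorem gauss_range (a : ℝ) (ha : 0 < a) (N : ℕ) :
    ∑ j ∈ Finset.range (N + 1), Real.exp (-(a * (j : ℝ) ^ 2)) ≤ 1 + Real.sqrt (Real.pi / a) / 2 := by
  rw [Finset.sum_range_succ']
  have h0 : Real.exp (-(a * ((0 : ℕ) : ℝ) ^ 2)) = 1 := by simp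
  rw [h0]
  have h1 : ∑ j ∈ Finset.range N, Real.exp (-(a * ((j + 1 : ℕ) : ℝ) ^ 2)) ≤
      ∫ x in (0 : ℝ)..((0 : ℝ) + N), Real.exp (-a * x ^ 2) := by
    have h2 : AntitoneOn (fun x : ℝ => Real.exp (-a * x ^ 2)) (Set.Icc (0 : ℝ) (0 + N)) := by
      intro x hx y hy hxy
      apply Real.exp_le_exp.mpr
      have hx0 : 0 ≤ x := hx.1
      nlinarith [mul_nonneg ha.le (mul_nonneg (sub_nonneg.mpr hxy) (add_nonneg hx0 (hx0.trans hxy)))]
    have h3 := h2.sum_le_integral
    refine le_trans (le_of_eq ?_) h3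
    refine Finset.sum_congr rfl fun j _ => ?_
    congr 1
    push_cast
    ring
  have h4 : ∫ x in (0 : ℝ)..((0 : ℝ) + N), Real.exp (-a * x ^ 2) ≤
      ∫ x in Set.Ioi (0 : ℝ), Real.exp (-a * x ^ 2) := by
    rw [intervalIntegral.integral_of_le (by positivity)]
    apply MeasureTheory.setIntegral_mono_set
    · exact (integrable_exp_neg_mul_sq ha).integrableOn
    · exact Filter.Eventually.of_forall fun x => (Real.exp_pos _).le
    · exact (Set.Ioc_subset_Ioi_self).eventuallyLE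
  rw [integral_gaussian_Ioi] at h4
  linarith

/-- the sum over the cyclic group of a function of the absolute value -/
theorem sum_zmod (M : ℕ) [NeZero M] (G : ℕ → ℝ) (hG : ∀ j, 0 ≤ G j) :
    ∑ q : ZMod M, G q.valMinAbs.natAbs ≤ 2 * ∑ j ∈ Finset.range (M + 1), G j := by
  classical
  let e : ZMod M → ℕ × Bool := fun q => (q.valMinAbs.natAbs, decide (0 ≤ q.valMinAbs))
  have he : Function.Injective e := by
    intro p q h
    simp only [e, Prod.mk.injEq, decide_eq_decide] at h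
    obtain ⟨h1, h2⟩ := h
    apply ZMod.injective_valMinAbs
    omega
  have h1 : ∑ q : ZMod M, G q.valMinAbs.natAbs =
      ∑ x ∈ Finset.univ.image e, G x.1 := by
    rw [Finset.sum_image (fun a _ b _ h => he h)]
  have h2 : Finset.univ.image e ⊆ Finset.range (M + 1) ×ˢ (Finset.univ : Finset Bool) := by
    intro x hx
    rw [Finset.mem_image] at hx
    obtain ⟨q, _, rfl⟩ := hx
    rw [Finset.mem_product]
    refine ⟨?_, Finset.mem_univ _⟩
    rw [Finset.mem_range]
    have := ZMod.natAbs_valMinAbs_le q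
    show q.valMinAbs.natAbs < M + 1
    omega
  rw [h1]
  refine (Finset.sum_le_sum_of_subset_of_nonneg h2 fun x _ _ => hG _).trans ?_
  rw [Finset.sum_product]
  simp only [Finset.sum_const, Finset.card_univ, Fintype.card_bool, nsmul_eq_mul]
  rw [Finset.mul_sum]
  push_cast
  exact le_rfl

/-- telescoping: `∑_{m > n} m^{-3/2} ≤ 2 n^{-1/2}` -/
theorem tail_sum (n : ℕ) (hn : 1 ≤ n) (N : ℕ) :
    ∑ m ∈ Finset.Ico (n + 1) N, (1 / Real.sqrt m) ^ 3 ≤ 2 * (1 / Real.sqrt n) := by
  have key : ∀ m : ℕ, 2 ≤ m → (1 / Real.sqrt m) ^ 3 ≤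
      2 * (1 / Real.sqrt ((m - 1 : ℕ) : ℝ)) - 2 * (1 / Real.sqrt m) := by
    intro m hm
    obtain ⟨k, rfl⟩ : ∃ k, m = k + 1 := ⟨m - 1, by omega⟩
    have hk : 1 ≤ k := by omega
    rw [Nat.add_sub_cancel]
    set a : ℝ := Real.sqrt ((k : ℕ) : ℝ) with ha
    set b : ℝ := Real.sqrt ((k + 1 : ℕ) : ℝ) with hb
    have ha2 : a ^ 2 = k := Real.sq_sqrt (by positivity)
    have hb2 : b ^ 2 = k + 1 := by
      rw [hb, Real.sq_sqrt (by positivity)]
      push_cast
      ring
    have ha0 : 0 < a := Real.sqrt_pos.mpr (by exact_mod_cast hk)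
    have hb0 : 0 < b := Real.sqrt_pos.mpr (by positivity)
    have hab : a ≤ b := Real.sqrt_le_sqrt (by push_cast; linarith)
    have h1 : (b - a) * (b + a) = 1 := by
      have : (b - a) * (b + a) = b ^ 2 - a ^ 2 := by ring
      rw [this, ha2, hb2]
      ring
    have h2 : 2 * (1 / a) - 2 * (1 / b) - (1 / b) ^ 3 =
        (2 * (b - a) * b ^ 2 - a) / (a * b ^ 3) := by
      field_simp
    have h3 : 0 ≤ 2 * (b - a) * b ^ 2 - a := by
      have h4 : a * (b + a) ≤ 2 * b ^ 2 := by nlinarith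
      have h5 : 2 * (b - a) * b ^ 2 ≥ (b - a) * (a * (b + a)) := by
        have := mul_le_mul_of_nonneg_left h4 (sub_nonneg.mpr hab)
        linarith
      have h6 : (b - a) * (a * (b + a)) = a * ((b - a) * (b + a)) := by ring
      rw [h6, h1] at h5
      linarith
    have h7 : 0 ≤ (2 * (b - a) * b ^ 2 - a) / (a * b ^ 3) := div_nonneg h3 (by positivity)
    linarith
  have h8 : ∀ N : ℕ, n + 1 ≤ N → ∑ m ∈ Finset.Ico (n + 1) N, (1 / Real.sqrt m) ^ 3 ≤
      2 * (1 / Real.sqrt n) - 2 * (1 / Real.sqrt ((N - 1 : ℕ) : ℝ)) := by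
    intro N hN
    induction N, hN using Nat.le_induction with
    | base => simp
    | succ N hN ih =>
      rw [Finset.sum_Ico_succ_top hN]
      have h9 := key N (by omega)
      rw [Nat.add_sub_cancel]
      linarith
  rcases Nat.lt_or_ge N (n + 1) with h | h
  · rw [Finset.Ico_eq_empty (by omega)]
    simp only [Finset.sum_empty]
    positivity
  · have h9 := h8 N h
    have h10 : 0 ≤ 2 * (1 / Real.sqrt ((N - 1 : ℕ) : ℝ)) := by positivity
    linarith

end Pool.Agent.LE.QD.H81
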