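import Pool.Agent.Helper81_LQD.RWSa

/-!
# RWS, part b: the convolution operator and its Fourier transform
-/

set_option autoImplicit false
set_option linter.unusedSectionVars false

open scoped BigOperators

noncomputable section

namespace Pool.Agent.LE.QD.H81

open Pool.Agent.BED Pool.Agent.LE.IR Pool.Agent.LE.QD
open Pool.Agent.LE.IR.H54

variable {d M : ℕ} [NeZero M]

/-- the convolution with `v k` -/
def TT (k : Tor d M → ℝ) (v : ℝ) (g : Tor d M → ℝ) (x : Tor d M) : ℝ :=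
  v * ∑ y, k (x - y) * g y

/-- the Fourier transform of an even kernel -/
def kh (k : Tor d M → ℝ) (q : Tor d M) : ℝ := ∑ x, k x * (ec q x).re

theorem ft_k (k : Tor d M → ℝ) (hk : ∀ x, k (-x) = k x) (q : Tor d M) :
    ft (fun x => (k x : ℂ)) q = (kh k q : ℂ) := by
  have h1 : (starRingEnd ℂ) (ft (fun x => (k x : ℂ)) q) = ft (fun x => (k x : ℂ)) q := by
    unfold ft
    rw [map_sum]
    have h2 := Equiv.sum_comp (Equiv.neg (Tor d M)) (fun z => (starRingEnd ℂ)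
      ((starRingEnd ℂ) (ec q z) * (k z : ℂ)))
    rw [← h2]
    refine Finset.sum_congr rfl fun z _ => ?_
    simp only [Equiv.neg_apply]
    rw [ec_neg, hk, Complex.conj_conj, map_mul, Complex.conj_ofReal]
  have h3 := Complex.conj_eq_iff_re.mp h1
  rw [← h3]
  congr 1
  unfold ft kh
  rw [Complex.re_sum]
  refine Finset.sum_congr rfl fun z _ => ?_
  rw [Complex.re_mul_ofReal, Complex.conj_re, mul_comm]

theorem ft_TT (k : Tor d M → ℝ) (hk : ∀ x, k (-x) = k x) (v : ℝ) (g : Tor d M → ℝ)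
    (q : Tor d M) : ft (fun x => (TT k v g x : ℂ)) q =
      ((v * kh k q : ℝ) : ℂ) * ft (fun x => (g x : ℂ)) q := by
  have h1 : (fun x => (TT k v g x : ℂ)) = fun x => (v : ℂ) * ∑ y, (g y : ℂ) * (k (x - y) : ℂ) := by
    funext x
    unfold TT
    push_cast
    congr 1
    exact Finset.sum_congr rfl fun y _ => mul_comm _ _
  rw [h1, ft_smul, ft_sum Finset.univ (fun (y : Tor d M) x => (g y : ℂ) * (k (x - y) : ℂ))]
  have h2 : ∀ y : Tor d M, ft (fun x => (g y : ℂ) * (k (x - y) : ℂ)) q =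
      (kh k q : ℂ) * ((starRingEnd ℂ) (ec q y) * (g y : ℂ)) := by
    intro y
    rw [ft_smul, ft_shift' (fun x => (k x : ℂ)) y q, ft_k k hk]
    ring
  rw [Finset.sum_congr rfl fun y _ => h2 y, ← Finset.mul_sum]
  unfold ft
  push_cast
  ring

theorem ft_iter (k : Tor d M → ℝ) (hk : ∀ x, k (-x) = k x) (v : ℝ) (g : Tor d M → ℝ) (m : ℕ)
    (q : Tor d M) : ft (fun x => ((TT k v)^[m] g x : ℂ)) q =
      (((v * kh k q) ^ m : ℝ) : ℂ) * ft (fun x => (g x : ℂ)) q := by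
  induction m with
  | zero => simp
  | succ m ih =>
    have h1 : (fun x => ((TT k v)^[m + 1] g x : ℂ)) =
        fun x => (TT k v ((TT k v)^[m] g) x : ℂ) := by
      funext x
      rw [Function.iterate_succ_apply']
    rw [h1, ft_TT k hk, ih, pow_succ]
    push_cast
    ring

theorem parseval_iter (k : Tor d M → ℝ) (hk : ∀ x, k (-x) = k x) (v : ℝ) (g : Tor d M → ℝ)
    (m : ℕ) : ∑ x, g x * (TT k v)^[m] g x =
      pm fun q => (v * kh k q) ^ m * ‖ft (fun x => (g x : ℂ)) q‖ ^ 2 := by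
  have h1 := parseval2 (fun x => ((TT k v)^[m] g x : ℂ)) (fun x => (g x : ℂ))
  have h2 : ∑ x, (starRingEnd ℂ) (g x : ℂ) * ((TT k v)^[m] g x : ℂ) =
      ((∑ x, g x * (TT k v)^[m] g x : ℝ) : ℂ) := by
    push_cast
    exact Finset.sum_congr rfl fun x _ => by rw [Complex.conj_ofReal]
  have h3 : (∑ p, (starRingEnd ℂ) (ft (fun x => (g x : ℂ)) p) *
      ft (fun x => ((TT k v)^[m] g x : ℂ)) p) / (M : ℂ) ^ d =
      ((pm fun q => (v * kh k q) ^ m * ‖ft (fun x => (g x : ℂ)) q‖ ^ 2 : ℝ) : ℂ) := by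
    unfold pm
    push_cast
    congr 1
    refine Finset.sum_congr rfl fun p _ => ?_
    rw [ft_iter k hk]
    have h4 : (starRingEnd ℂ) (ft (fun x => (g x : ℂ)) p) * ft (fun x => (g x : ℂ)) p =
        ((‖ft (fun x => (g x : ℂ)) p‖ ^ 2 : ℝ) : ℂ) := by
      rw [mul_comm, Complex.mul_conj, Complex.normSq_eq_norm_sq]
    push_cast at h4 ⊢
    linear_combination ((v : ℂ) * (kh k p : ℂ)) ^ m * h4
  rw [h2, h3] at h1
  exact_mod_cast h1

theorem TT_mono (k : Tor d M → ℝ) (hk0 : ∀ x, 0 ≤ k x) {v : ℝ} (hv : 0 ≤ v)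
    {g g' : Tor d M → ℝ} (h : ∀ x, g x ≤ g' x) (x : Tor d M) : TT k v g x ≤ TT k v g' x := by
  unfold TT
  apply mul_le_mul_of_nonneg_left _ hv
  exact Finset.sum_le_sum fun y _ => mul_le_mul_of_nonneg_left (h y) (hk0 _)

theorem iter_mono (k : Tor d M → ℝ) (hk0 : ∀ x, 0 ≤ k x) {v : ℝ} (hv : 0 ≤ v)
    {g g' : Tor d M → ℝ} (h : ∀ x, g x ≤ g' x) (m : ℕ) (x : Tor d M) :
    (TT k v)^[m] g x ≤ (TT k v)^[m] g' x := by
  induction m generalizing x with
  | zero => exact h x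
  | succ m ih =>
    rw [Function.iterate_succ_apply', Function.iterate_succ_apply']
    exact TT_mono k hk0 hv ih x

theorem sum_k_sub (k : Tor d M → ℝ) (x : Tor d M) : ∑ y, k (x - y) = ∑ y, k y :=
  Equiv.sum_comp (Equiv.subLeft x) k

theorem TT_bd (k : Tor d M → ℝ) (hk0 : ∀ x, 0 ≤ k x) {v : ℝ} (hv : 0 ≤ v) {g : Tor d M → ℝ}
    {B : ℝ} (h : ∀ x, 0 ≤ g x ∧ g x ≤ B) (x : Tor d M) :
    0 ≤ TT k v g x ∧ TT k v g x ≤ (v * ∑ y, k y) * B := by
  unfold TT
  constructor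
  · exact mul_nonneg hv (Finset.sum_nonneg fun y _ => mul_nonneg (hk0 _) (h y).1)
  · rw [mul_assoc, ← sum_k_sub k x, Finset.sum_mul]
    apply mul_le_mul_of_nonneg_left _ hv
    exact Finset.sum_le_sum fun y _ => mul_le_mul_of_nonneg_left (h y).2 (hk0 _)

theorem iter_bd (k : Tor d M → ℝ) (hk0 : ∀ x, 0 ≤ k x) {v : ℝ} (hv : 0 ≤ v) {g : Tor d M → ℝ}
    (h : ∀ x, 0 ≤ g x ∧ g x ≤ 1) (m : ℕ) (x : Tor d M) :
    0 ≤ (TT k v)^[m] g x ∧ (TT k v)^[m] g x ≤ (v * ∑ y, k y) ^ m := by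
  induction m generalizing x with
  | zero => simpa using h x
  | succ m ih =>
    rw [Function.iterate_succ_apply', pow_succ']
    exact TT_bd k hk0 hv ih x

end Pool.Agent.LE.QD.H81
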