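import Pool.Agent.Helper81_LQD.RWSb

/-!
# RWS, part c: the test function
-/

set_option autoImplicit false
set_option linter.unusedSectionVars false

open scoped BigOperators

noncomputable section

namespace Pool.Agent.LE.QD.H81

open Pool.Agent.BED Pool.Agent.LE.IR Pool.Agent.LE.QD
open Pool.Agent.LE.IR.H54

variable {d M : ℕ} [NeZero M]

theorem mem_low {J : ℕ} {p : Tor d M} : p ∈ low d M J ↔ ∀ i, (p i).valMinAbs.natAbs ≤ J := by
  unfold low
  rw [Finset.mem_filter]
  exact ⟨fun h => h.2, fun h => ⟨Finset.mem_univ _, h⟩⟩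

/-- the number of low momenta -/
theorem low_card (J : ℕ) (hJ : J ≤ M / 2) : (J + 1) ^ d ≤ (low d M J).card := by
  classical
  set S : Finset (ZMod M) := (Finset.range (J + 1)).image (fun j : ℕ => (j : ZMod M)) with hS
  have hval : ∀ j : ℕ, j ≤ J → ((j : ZMod M)).valMinAbs = j := fun j hj =>
    ZMod.valMinAbs_natCast_of_le_half (hj.trans hJ)
  have h1 : S.card = J + 1 := by
    rw [hS, Finset.card_image_of_injOn, Finset.card_range]
    intro a ha b hb hab
    have ha' : a ≤ J := by
      have := Finset.mem_coe.mp ha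
      rw [Finset.mem_range] at this
      omega
    have hb' : b ≤ J := by
      have := Finset.mem_coe.mp hb
      rw [Finset.mem_range] at this
      omega
    have h2 := hval a ha'
    have h3 := hval b hb'
    simp only at hab
    rw [hab, h3] at h2
    exact_mod_cast h2.symm
  have h2 : Fintype.piFinset (fun _ : Fin d => S) ⊆ low d M J := by
    intro p hp
    rw [Fintype.mem_piFinset] at hp
    rw [mem_low]
    intro i
    have h3 := hp i
    rw [hS, Finset.mem_image] at h3
    obtain ⟨j, hj, hj'⟩ := h3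
    rw [Finset.mem_range] at hj
    rw [← hj', hval j (by omega)]
    simp only [Int.natAbs_natCast]
    omega
  have h3 := Finset.card_le_card h2
  rw [Fintype.card_piFinset_const, h1] at h3
  exact h3

/-- the real part of the characters with low momentum on the cube -/
theorem ec_re_low (L J : ℕ) (hJL : 16 * d * L * J ≤ M) (p x : Tor d M) (hp : p ∈ low d M J)
    (hx : ∀ i, (x i).val < L) : 3 / 4 ≤ (ec p x).re := by
  rw [mem_low] at hp
  have hM : (0 : ℝ) < M := by exact_mod_cast Nat.pos_of_ne_zero (NeZero.ne M)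
  set t : ℝ := ∑ i, 2 * Real.pi * (((p i).valMinAbs : ℝ) * ((x i).val : ℝ)) / M with ht
  have h1 : ec p x = Complex.exp ((t : ℂ) * Complex.I) := by
    unfold ec
    rw [ht]
    push_cast
    rw [Finset.sum_mul, Complex.exp_sum]
    refine Finset.prod_congr rfl fun i _ => ?_
    have h2 : p i * x i = (((p i).valMinAbs * ((x i).val : ℤ) : ℤ) : ZMod M) := by
      push_cast
      rw [ZMod.natCast_zmod_val]
    rw [h2, ZMod.stdAddChar_coe]
    congr 1
    push_cast
    ring
  rw [h1, Complex.exp_ofReal_mul_I_re]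
  have h3 : |t| ≤ Real.pi / 8 := by
    rw [ht]
    refine (Finset.abs_sum_le_sum_abs _ _).trans ?_
    have h4 : ∀ i : Fin d, |2 * Real.pi * (((p i).valMinAbs : ℝ) * ((x i).val : ℝ)) / M| ≤
        2 * Real.pi * ((J : ℝ) * L) / M := by
      intro i
      have h2pi : |2 * Real.pi| = 2 * Real.pi := abs_of_pos (by positivity)
      rw [abs_div, abs_mul (2 * Real.pi), h2pi, abs_mul, abs_of_pos hM, Nat.abs_cast]
      have h5 : |((p i).valMinAbs : ℝ)| ≤ J := by
        have h6 := hp i
        have h7 : |((p i).valMinAbs : ℤ)| ≤ (J : ℤ) := by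
          rw [Int.abs_eq_natAbs]
          exact_mod_cast h6
        exact_mod_cast h7
      have h8 : ((x i).val : ℝ) ≤ L := by exact_mod_cast (hx i).le
      gcongr
    refine (Finset.sum_le_sum fun i _ => h4 i).trans ?_
    rw [Finset.sum_const, Finset.card_univ, Fintype.card_fin, nsmul_eq_mul]
    have h9 : (16 : ℝ) * d * L * J ≤ M := by exact_mod_cast hJL
    rw [← mul_div_assoc, div_le_iff₀ hM]
    have h10 : (d : ℝ) * (2 * Real.pi * ((J : ℝ) * L)) = Real.pi / 8 * (16 * d * L * J) := by ring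
    rw [h10]
    exact mul_le_mul_of_nonneg_left h9 (by positivity)
  have h11 := Real.one_sub_sq_div_two_le_cos (x := t)
  have h12 : t ^ 2 ≤ 1 / 2 := by
    have h13 : |t| ^ 2 ≤ (Real.pi / 8) ^ 2 := pow_le_pow_left₀ (abs_nonneg _) h3 2
    rw [sq_abs] at h13
    have h14 : Real.pi < 3.15 := Real.pi_lt_d2
    have h15 : 0 < Real.pi := Real.pi_pos
    nlinarith
  linarith

/-- the sum of the characters with low momenta -/
def dd (J : ℕ) (x : Tor d M) : ℂ := ∑ p ∈ low d M J, ec p x

/-- the test function -/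
def hf (J : ℕ) (x : Tor d M) : ℝ := 2 * ‖dd J x‖ ^ 2 / ((low d M J).card : ℝ) ^ 2

theorem low_nonempty (J : ℕ) : 0 < (low d M J).card := by
  apply Finset.card_pos.mpr
  refine ⟨0, ?_⟩
  rw [mem_low]
  intro i
  simp

theorem hf_nonneg (J : ℕ) (x : Tor d M) : 0 ≤ hf J x := by
  unfold hf
  positivity

theorem hf_ge (L J : ℕ) (hJL : 16 * d * L * J ≤ M) (x : Tor d M) (hx : ∀ i, (x i).val < L) :
    1 ≤ hf J x := by
  have hc : (0 : ℝ) < (low d M J).card := by exact_mod_cast low_nonempty J
  have h1 : 3 / 4 * ((low d M J).card : ℝ) ≤ (dd J x).re := by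
    unfold dd
    rw [Complex.re_sum]
    have h2 := Finset.card_nsmul_le_sum (low d M J) (fun p => (ec p x).re) (3 / 4)
      (fun p hp => ec_re_low L J hJL p x hp hx)
    rw [nsmul_eq_mul] at h2
    linarith
  have h2 : (dd J x).re ≤ ‖dd J x‖ := Complex.re_le_norm _
  unfold hf
  rw [le_div_iff₀ (by positivity), one_mul]
  have h3 : 3 / 4 * ((low d M J).card : ℝ) ≤ ‖dd J x‖ := h1.trans h2
  have h4 : (3 / 4 * ((low d M J).card : ℝ)) ^ 2 ≤ ‖dd J x‖ ^ 2 :=
    pow_le_pow_left₀ (by positivity) h3 2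
  nlinarith [sq_nonneg ((low d M J).card : ℝ)]

theorem ft_ec (r q : Tor d M) : ft (fun x => ec r x) q = if r = q then (M : ℂ) ^ d else 0 := by
  unfold ft
  have h1 : ∀ y : Tor d M, (starRingEnd ℂ) (ec q y) * ec r y = ec (r - q) y := by
    intro y
    rw [sub_eq_add_neg, ec_add_left, ec_neg_left, mul_comm]
  rw [Finset.sum_congr rfl fun y _ => h1 y, sum_ec]
  simp only [sub_eq_zero]

theorem hf_eq (J : ℕ) (x : Tor d M) : (hf J x : ℂ) =
    (2 / ((low d M J).card : ℂ) ^ 2) * ∑ p ∈ low d M J, ∑ p' ∈ low d M J, ec (p - p') x := by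
  unfold hf
  have h1 : ((‖dd J x‖ ^ 2 : ℝ) : ℂ) = dd J x * (starRingEnd ℂ) (dd J x) := by
    rw [Complex.mul_conj, Complex.normSq_eq_norm_sq]
  have h2 : dd J x * (starRingEnd ℂ) (dd J x) =
      ∑ p ∈ low d M J, ∑ p' ∈ low d M J, ec (p - p') x := by
    unfold dd
    rw [map_sum, Finset.sum_mul_sum]
    refine Finset.sum_congr rfl fun p _ => Finset.sum_congr rfl fun p' _ => ?_
    rw [sub_eq_add_neg, ec_add_left, ec_neg_left]
  push_cast
  push_cast at h1
  rw [h1, h2]
  ring

theorem ft_hf (J : ℕ) (q : Tor d M) : ft (fun x => (hf J x : ℂ)) q =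
    (2 / ((low d M J).card : ℂ) ^ 2) * ∑ p ∈ low d M J, ∑ p' ∈ low d M J,
      if p - p' = q then (M : ℂ) ^ d else 0 := by
  have h1 : (fun x : Tor d M => (hf J x : ℂ)) = fun x => (2 / ((low d M J).card : ℂ) ^ 2) *
      ∑ p ∈ low d M J, ∑ p' ∈ low d M J, ec (p - p') x := by
    funext x
    exact hf_eq J x
  rw [h1, ft_smul, ft_sum]
  congr 1
  refine Finset.sum_congr rfl fun p _ => ?_
  rw [ft_sum]
  exact Finset.sum_congr rfl fun p' _ => ft_ec _ _

/-- the bound of the Fourier transform -/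
theorem ft_hf_le (J : ℕ) (q : Tor d M) :
    ‖ft (fun x => (hf J x : ℂ)) q‖ ≤ 2 * (M : ℝ) ^ d / (low d M J).card := by
  have hc : (0 : ℝ) < (low d M J).card := by exact_mod_cast low_nonempty J
  rw [ft_hf, norm_mul]
  have h1 : ‖(2 / ((low d M J).card : ℂ) ^ 2)‖ = 2 / ((low d M J).card : ℝ) ^ 2 := by
    rw [norm_div, norm_pow, Complex.norm_natCast]
    norm_num
  rw [h1]
  have h2 : ‖∑ p ∈ low d M J, ∑ p' ∈ low d M J,
      (if p - p' = q then (M : ℂ) ^ d else 0)‖ ≤ ((low d M J).card : ℝ) * (M : ℝ) ^ d := by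
    refine (norm_sum_le _ _).trans ?_
    have h3 : ∀ p ∈ low d M J, ‖∑ p' ∈ low d M J, (if p - p' = q then (M : ℂ) ^ d else 0)‖ ≤
        (M : ℝ) ^ d := by
      intro p _
      have h4 : ∑ p' ∈ low d M J, (if p - p' = q then (M : ℂ) ^ d else 0) =
          if p - q ∈ low d M J then (M : ℂ) ^ d else 0 := by
        have h5 : ∀ p' : Tor d M, (if p - p' = q then (M : ℂ) ^ d else 0) =
            if p - q = p' then (M : ℂ) ^ d else 0 := by
          intro p'
          have h6 : p - p' = q ↔ p - q = p' := by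
            constructor <;> intro h
            · rw [← h]; abel
            · rw [← h]; abel
          simp only [h6]
        rw [Finset.sum_congr rfl fun p' _ => h5 p', Finset.sum_ite_eq]
      rw [h4]
      split_ifs
      · rw [norm_pow, Complex.norm_natCast]
      · rw [norm_zero]
        positivity
    have h5 := Finset.sum_le_card_nsmul _ _ _ h3
    rw [nsmul_eq_mul] at h5
    exact h5
  calc 2 / ((low d M J).card : ℝ) ^ 2 * ‖∑ p ∈ low d M J, ∑ p' ∈ low d M J,
      (if p - p' = q then (M : ℂ) ^ d else 0)‖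
      ≤ 2 / ((low d M J).card : ℝ) ^ 2 * (((low d M J).card : ℝ) * (M : ℝ) ^ d) :=
        mul_le_mul_of_nonneg_left h2 (by positivity)
    _ = 2 * (M : ℝ) ^ d / (low d M J).card := by
        field_simp

/-- the support of the Fourier transform -/
theorem ft_hf_zero (J : ℕ) (q : Tor d M) (hq : q ∉ low d M (2 * J)) :
    ft (fun x => (hf J x : ℂ)) q = 0 := by
  rw [ft_hf]
  apply mul_eq_zero_of_right
  refine Finset.sum_eq_zero fun p hp => Finset.sum_eq_zero fun p' hp' => ?_
  rw [if_neg]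
  intro h
  apply hq
  rw [mem_low] at hp hp' ⊢
  intro i
  rw [← h]
  have h1 : (p - p') i = p i - p' i := rfl
  rw [h1]
  have h2 : (((p i).valMinAbs - (p' i).valMinAbs : ℤ) : ZMod M) = p i - p' i := by
    simp
  have h3 : (p i - p' i).valMinAbs.natAbs ≤ ((p i).valMinAbs - (p' i).valMinAbs).natAbs := by
    rw [← h2]
    exact ZMod.natAbs_min_of_le_div_two M _ _ (by rw [ZMod.coe_valMinAbs])
      (ZMod.natAbs_valMinAbs_le _)
  have h4 := hp i
  have h5 := hp' i
  omega

end Pool.Agent.LE.QD.H81
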