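import Pool.Agent.Helper81_LQD.RWSc

/-!
# RWS, part d: the bound of `⟨φ, T^m φ⟩`
-/

set_option autoImplicit false
set_option linter.unusedSectionVars false

open scoped BigOperators

noncomputable section

namespace Pool.Agent.LE.QD.H81

open Pool.Agent.BED Pool.Agent.LE.IR Pool.Agent.LE.QD
open Pool.Agent.LE.IR.H54

variable {d M : ℕ} [NeZero M]

/-- the Gaussian mean over the torus -/
theorem pm_gauss (c w : ℝ) (hc : 0 < c) (hw : 0 < w) (m : ℕ) (hm : 1 ≤ m) :
    pm (fun q : Tor d M => Real.exp (-(m * (c * (2 * Real.pi / M) ^ 2 *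
      (∑ i, ((q i).valMinAbs : ℝ) ^ 2) / w ^ 2)))) ≤
      2 ^ d * ((2 / M) ^ d + (w * (1 / Real.sqrt c) * (1 / Real.sqrt m)) ^ d) := by
  classical
  have hM : (0 : ℝ) < M := by exact_mod_cast Nat.pos_of_ne_zero (NeZero.ne M)
  have hm0 : (0 : ℝ) < m := by exact_mod_cast hm
  set a : ℝ := m * (c * (2 * Real.pi / M) ^ 2 / w ^ 2) with ha
  have ha0 : 0 < a := by
    have := Real.pi_pos
    positivity
  have h1 : ∀ q : Tor d M, Real.exp (-(m * (c * (2 * Real.pi / M) ^ 2 *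
      (∑ i, ((q i).valMinAbs : ℝ) ^ 2) / w ^ 2))) =
      ∏ i, Real.exp (-(a * (((q i).valMinAbs.natAbs : ℕ) : ℝ) ^ 2)) := by
    intro q
    rw [← Real.exp_sum]
    congr 1
    rw [Finset.sum_neg_distrib, ← Finset.mul_sum]
    have h2 : ∀ i : Fin d, (((q i).valMinAbs.natAbs : ℕ) : ℝ) ^ 2 = ((q i).valMinAbs : ℝ) ^ 2 := by
      intro i
      have h3 : (((q i).valMinAbs.natAbs : ℕ) : ℝ) = |((q i).valMinAbs : ℝ)| := by
        rw [← Int.cast_abs, Int.abs_eq_natAbs]
        simp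
      rw [h3, sq_abs]
    rw [Finset.sum_congr rfl fun i _ => h2 i, ha]
    ring
  have h2 : pm (fun q : Tor d M => Real.exp (-(m * (c * (2 * Real.pi / M) ^ 2 *
      (∑ i, ((q i).valMinAbs : ℝ) ^ 2) / w ^ 2)))) =
      ((∑ j : ZMod M, Real.exp (-(a * ((j.valMinAbs.natAbs : ℕ) : ℝ) ^ 2))) / M) ^ d := by
    unfold pm
    rw [Finset.sum_congr rfl fun q _ => h1 q, div_pow]
    congr 1
    have h3 := (Finset.prod_univ_sum (fun _ : Fin d => (Finset.univ : Finset (ZMod M)))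
      (fun _ j => Real.exp (-(a * ((j.valMinAbs.natAbs : ℕ) : ℝ) ^ 2)))).symm
    rw [Finset.prod_const, Finset.card_univ, Fintype.card_fin, Fintype.piFinset_univ] at h3
    exact h3
  rw [h2]
  have h3 := sum_zmod M (fun j => Real.exp (-(a * (j : ℝ) ^ 2))) (fun j => (Real.exp_pos _).le)
  have h4 := gauss_range a ha0 M
  have h5 : Real.sqrt (Real.pi / a) ≤ w * M * (1 / Real.sqrt c) * (1 / Real.sqrt m) := by
    rw [Real.sqrt_le_iff]
    constructor
    · positivity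
    · have hcs : Real.sqrt c ^ 2 = c := Real.sq_sqrt hc.le
      have hms : Real.sqrt m ^ 2 = m := Real.sq_sqrt hm0.le
      have h6 : (w * M * (1 / Real.sqrt c) * (1 / Real.sqrt m)) ^ 2 = w ^ 2 * M ^ 2 / (c * m) := by
        rw [mul_pow, mul_pow, mul_pow, div_pow, div_pow, hcs, hms]
        field_simp
      rw [h6, ha]
      have h7 : Real.pi / (m * (c * (2 * Real.pi / M) ^ 2 / w ^ 2)) =
          w ^ 2 * M ^ 2 / (c * m) * (1 / (4 * Real.pi)) := by
        have := Real.pi_pos.ne'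
        field_simp
        ring
      rw [h7]
      apply mul_le_of_le_one_right (by positivity)
      rw [div_le_one (by have := Real.pi_pos; positivity)]
      have := Real.pi_gt_three
      linarith
  have h6 : (∑ j : ZMod M, Real.exp (-(a * ((j.valMinAbs.natAbs : ℕ) : ℝ) ^ 2))) / M ≤
      2 / M + w * (1 / Real.sqrt c) * (1 / Real.sqrt m) := by
    rw [div_le_iff₀ hM]
    have h7 : (2 / M + w * (1 / Real.sqrt c) * (1 / Real.sqrt m)) * M =
        2 + w * M * (1 / Real.sqrt c) * (1 / Real.sqrt m) := by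
      field_simp
    rw [h7]
    linarith
  have h7 : 0 ≤ (∑ j : ZMod M, Real.exp (-(a * ((j.valMinAbs.natAbs : ℕ) : ℝ) ^ 2))) / M :=
    div_nonneg (Finset.sum_nonneg fun j _ => (Real.exp_pos _).le) hM.le
  refine (pow_le_pow_left₀ h7 h6 d).trans ?_
  refine (add_pow_le (by positivity) (by positivity) d).trans ?_
  apply mul_le_mul_of_nonneg_right _ (by positivity)
  exact pow_le_pow_right₀ (by norm_num) (Nat.sub_le _ _)

/-- the constant -/
def C1 (d : ℕ) (c : ℝ) : ℝ := 4 * (16 * d) ^ (2 * d) * 2 ^ d * (2 ^ d + (1 / Real.sqrt c) ^ d)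

theorem C1_pos (d : ℕ) (hd : 1 ≤ d) (c : ℝ) : 0 < C1 d c := by
  unfold C1
  have : (0 : ℝ) < d := by exact_mod_cast hd
  positivity

theorem S_bd (hd : 1 ≤ d) (k : Tor d M → ℝ) {v w c : ℝ} {L : ℕ} (𝒜 C' : Finset (Tor d M))
    (φ : Tor d M → ℝ) (hφ : ∀ x, φ x = if x ∈ C' then 1 else 0)
    (hk0 : ∀ x, 0 ≤ k x) (hks : ∀ x, k (-x) = k x) (hv : 0 < v) (hK : 0 < ∑ x, k x)
    (hw : 0 < w) (hc : 0 < c) (hgap : Gap k c w) (hwL : 1 / c ≤ w * L) (hL : 1 ≤ L)
    (hcov : ∀ x ∈ C', ∃ a ∈ 𝒜, x ∈ cbt a L) (m : ℕ) (hm : 1 ≤ m) :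
    ∑ x, φ x * (TT k v)^[m] φ x ≤ C1 d c * ((𝒜.card : ℝ) ^ 2 * ((L : ℝ) ^ d) ^ 2) *
      ((v * ∑ x, k x) ^ m * ((1 / (M : ℝ)) ^ d + w ^ d * (1 / Real.sqrt m) ^ d)) := by
  classical
  have hM : (0 : ℝ) < M := by exact_mod_cast Nat.pos_of_ne_zero (NeZero.ne M)
  have hMn : 0 < M := Nat.pos_of_ne_zero (NeZero.ne M)
  set J : ℕ := M / (16 * d * L) with hJ
  have hDpos : 0 < 16 * d * L := by positivity
  have hJ1 : 16 * d * L * J ≤ M := Nat.mul_div_le M _
  have hJ2 : M < 16 * d * L * (J + 1) := Nat.lt_mul_div_succ M hDpos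
  have hJ3 : J ≤ M / 2 := by
    apply Nat.div_le_div_left _ (by norm_num)
    have : 1 ≤ d * L := Nat.one_le_iff_ne_zero.mpr (by positivity)
    nlinarith
  -- the test function
  set H : Tor d M → ℝ := fun x => ∑ a ∈ 𝒜, hf J (x - a) with hH
  have hH0 : ∀ x, 0 ≤ H x := fun x => Finset.sum_nonneg fun a _ => hf_nonneg J _
  have hφ0 : ∀ x, 0 ≤ φ x ∧ φ x ≤ 1 := by
    intro x
    rw [hφ]
    split_ifs <;> norm_num
  have hφH : ∀ x, φ x ≤ H x := by
    intro x
    rw [hφ]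
    split_ifs with hx
    · obtain ⟨a, ha, hxa⟩ := hcov x hx
      have h1 : ∀ i, ((x - a) i).val < L := by
        unfold cbt at hxa
        rw [Finset.mem_filter] at hxa
        exact hxa.2
      have h2 := hf_ge L J hJ1 (x - a) h1
      have h3 := Finset.single_le_sum (f := fun a => hf J (x - a)) (fun a _ => hf_nonneg J _) ha
      exact h2.trans h3
    · exact hH0 x
  have h1 : ∑ x, φ x * (TT k v)^[m] φ x ≤ ∑ x, H x * (TT k v)^[m] H x := by
    refine Finset.sum_le_sum fun x _ => ?_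
    exact mul_le_mul (hφH x) (iter_mono k hk0 hv.le hφH m x)
      (iter_bd k hk0 hv.le hφ0 m x).1 (hH0 x)
  refine h1.trans ?_
  rw [parseval_iter k hks]
  -- the Fourier transform of the test function
  have hlow : (0 : ℝ) < (low d M J).card := by exact_mod_cast low_nonempty J
  have hftH : ∀ q, ft (fun x => (H x : ℂ)) q =
      (∑ a ∈ 𝒜, (starRingEnd ℂ) (ec q a)) * ft (fun x => (hf J x : ℂ)) q := by
    intro q
    have h2 : (fun x => (H x : ℂ)) = fun x => ∑ a ∈ 𝒜, (hf J (x - a) : ℂ) := by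
      funext x
      rw [hH]
      push_cast
      rfl
    rw [h2, ft_sum, Finset.sum_mul]
    exact Finset.sum_congr rfl fun a _ => ft_shift' (fun x => (hf J x : ℂ)) a q
  have hcard : (M : ℝ) ^ d ≤ (16 * d * L) ^ d * (low d M J).card := by
    have h2 : (M : ℝ) ≤ 16 * d * L * (J + 1) := by exact_mod_cast hJ2.le
    have h3 : ((J + 1 : ℕ) : ℝ) ^ d ≤ (low d M J).card := by
      exact_mod_cast low_card J hJ3
    calc (M : ℝ) ^ d ≤ (16 * d * L * (J + 1)) ^ d := pow_le_pow_left₀ hM.le h2 d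
      _ = (16 * d * L) ^ d * ((J + 1 : ℕ) : ℝ) ^ d := by
          rw [mul_pow]
          push_cast
          ring
      _ ≤ _ := mul_le_mul_of_nonneg_left h3 (by positivity)
  have hftle : ∀ q, ‖ft (fun x => (H x : ℂ)) q‖ ≤ 𝒜.card * (2 * (16 * d * L) ^ d) := by
    intro q
    rw [hftH, norm_mul]
    have h2 : ‖∑ a ∈ 𝒜, (starRingEnd ℂ) (ec q a)‖ ≤ 𝒜.card := by
      refine (norm_sum_le _ _).trans ?_
      have h3 : ∀ a ∈ 𝒜, ‖(starRingEnd ℂ) (ec q a)‖ = 1 := by
        intro a _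
        rw [RCLike.norm_conj, ec_norm]
      rw [Finset.sum_congr rfl h3]
      simp
    have h3 : ‖ft (fun x => (hf J x : ℂ)) q‖ ≤ 2 * (16 * d * L) ^ d := by
      refine (ft_hf_le J q).trans ?_
      rw [div_le_iff₀ hlow]
      linarith
    exact mul_le_mul h2 h3 (norm_nonneg _) (by positivity)
  set θ : ℝ := v * ∑ x, k x with hθ
  have hθ0 : 0 < θ := mul_pos hv hK
  set B : ℝ := (𝒜.card * (2 * (16 * d * L) ^ d)) ^ 2 with hB
  have hB0 : 0 ≤ B := by positivity
  have hterm : ∀ q : Tor d M, (v * kh k q) ^ m * ‖ft (fun x => (H x : ℂ)) q‖ ^ 2 ≤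
      θ ^ m * B * Real.exp (-(m * (c * (2 * Real.pi / M) ^ 2 *
        (∑ i, ((q i).valMinAbs : ℝ) ^ 2) / w ^ 2))) := by
    intro q
    by_cases hq : q ∈ low d M (2 * J)
    · have hq' := hq
      rw [mem_low] at hq'
      have h2 := hgap q (by
        intro i
        have h3 : |((q i).valMinAbs : ℝ)| ≤ 2 * J := by
          have h7 : |((q i).valMinAbs : ℤ)| ≤ ((2 * J : ℕ) : ℤ) := by
            rw [Int.abs_eq_natAbs]
            exact_mod_cast hq' i
          have h8 : |((q i).valMinAbs : ℝ)| ≤ ((2 * J : ℕ) : ℝ) := by exact_mod_cast h7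
          push_cast at h8
          exact h8
        have h4 : (16 : ℝ) * d * L * J ≤ M := by exact_mod_cast hJ1
        have h5 : 1 ≤ c * (w * L) := by
          rw [div_le_iff₀ hc] at hwL
          linarith
        have h6 : (1 : ℝ) ≤ d := by exact_mod_cast hd
        have hJ0 : (0 : ℝ) ≤ J := Nat.cast_nonneg _
        have hpi : Real.pi < 3.15 := Real.pi_lt_d2
        calc 2 * Real.pi * |((q i).valMinAbs : ℝ)| ≤ 2 * Real.pi * (2 * J) := by
              apply mul_le_mul_of_nonneg_left h3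
              have := Real.pi_pos
              positivity
          _ ≤ 16 * J := by nlinarith
          _ ≤ 16 * J * d := by nlinarith
          _ ≤ 16 * J * d * (c * (w * L)) := by
              apply le_mul_of_one_le_right _ h5
              positivity
          _ = c * w * (16 * d * L * J) := by ring
          _ ≤ c * w * M := mul_le_mul_of_nonneg_left h4 (by positivity))
      set X : ℝ := c * (2 * Real.pi / M) ^ 2 * (∑ i, ((q i).valMinAbs : ℝ) ^ 2) / w ^ 2 with hX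
      have h3 : |kh k q| ≤ (1 - X) * ∑ x, k x := h2
      have h4 : 0 ≤ 1 - X := by
        have h5 : 0 ≤ (1 - X) * ∑ x, k x := (abs_nonneg _).trans h3
        exact nonneg_of_mul_nonneg_left h5 hK
      have h5 : |v * kh k q| ≤ θ * (1 - X) := by
        rw [abs_mul, abs_of_pos hv, hθ]
        have := mul_le_mul_of_nonneg_left h3 hv.le
        linarith
      have h6 : (v * kh k q) ^ m ≤ θ ^ m * Real.exp (-(m * X)) := by
        calc (v * kh k q) ^ m ≤ |(v * kh k q) ^ m| := le_abs_self _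
          _ = |v * kh k q| ^ m := abs_pow _ _
          _ ≤ (θ * (1 - X)) ^ m := pow_le_pow_left₀ (abs_nonneg _) h5 m
          _ = θ ^ m * (1 - X) ^ m := mul_pow _ _ _
          _ ≤ θ ^ m * Real.exp (-X) ^ m := by
              apply mul_le_mul_of_nonneg_left _ (by positivity)
              apply pow_le_pow_left₀ h4
              have := Real.add_one_le_exp (-X)
              linarith
          _ = θ ^ m * Real.exp (-(m * X)) := by
              rw [← Real.exp_nat_mul]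
              congr 2
              ring
      have h7 : ‖ft (fun x => (H x : ℂ)) q‖ ^ 2 ≤ B := pow_le_pow_left₀ (norm_nonneg _) (hftle q) 2
      calc (v * kh k q) ^ m * ‖ft (fun x => (H x : ℂ)) q‖ ^ 2
          ≤ (θ ^ m * Real.exp (-(m * X))) * ‖ft (fun x => (H x : ℂ)) q‖ ^ 2 :=
            mul_le_mul_of_nonneg_right h6 (by positivity)
        _ ≤ (θ ^ m * Real.exp (-(m * X))) * B :=
            mul_le_mul_of_nonneg_left h7 (by positivity)
        _ = _ := by ring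
    · rw [hftH, ft_hf_zero J q hq, mul_zero, norm_zero]
      have : 0 ≤ θ ^ m * B * Real.exp (-(m * (c * (2 * Real.pi / M) ^ 2 *
        (∑ i, ((q i).valMinAbs : ℝ) ^ 2) / w ^ 2))) := by positivity
      simpa using this
  have hpm : pm (fun q => (v * kh k q) ^ m * ‖ft (fun x => (H x : ℂ)) q‖ ^ 2) ≤
      θ ^ m * B * pm (fun q : Tor d M => Real.exp (-(m * (c * (2 * Real.pi / M) ^ 2 *
        (∑ i, ((q i).valMinAbs : ℝ) ^ 2) / w ^ 2)))) := by
    unfold pm
    rw [← mul_div_assoc, Finset.mul_sum]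
    apply div_le_div_of_nonneg_right _ (by positivity)
    exact Finset.sum_le_sum fun q _ => hterm q
  refine hpm.trans ?_
  have hg := pm_gauss (d := d) (M := M) c w hc hw m hm
  refine (mul_le_mul_of_nonneg_left hg (by positivity)).trans ?_
  have e1 : (w * (1 / Real.sqrt c) * (1 / Real.sqrt m)) ^ d =
      (1 / Real.sqrt c) ^ d * (w ^ d * (1 / Real.sqrt m) ^ d) := by
    rw [mul_pow, mul_pow]
    ring
  have e2 : (2 / (M : ℝ)) ^ d = 2 ^ d * (1 / (M : ℝ)) ^ d := by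
    rw [← mul_pow]
    congr 1
    ring
  have e3 : B = 4 * (16 * d) ^ (2 * d) * ((𝒜.card : ℝ) ^ 2 * ((L : ℝ) ^ d) ^ 2) := by
    rw [hB]
    have h2 : ((16 : ℝ) * d * L) ^ d = (16 * d) ^ d * (L : ℝ) ^ d := mul_pow _ _ _
    rw [h2, mul_comm 2 d, pow_mul]
    ring
  have hx0 : 0 ≤ (1 / (M : ℝ)) ^ d := by positivity
  have hy0 : 0 ≤ w ^ d * (1 / Real.sqrt m) ^ d := by positivity
  have hs0 : 0 ≤ (1 / Real.sqrt c) ^ d := by positivity
  have e4 : 2 ^ d * (1 / (M : ℝ)) ^ d + (1 / Real.sqrt c) ^ d * (w ^ d * (1 / Real.sqrt m) ^ d) ≤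
      (2 ^ d + (1 / Real.sqrt c) ^ d) * ((1 / (M : ℝ)) ^ d + w ^ d * (1 / Real.sqrt m) ^ d) := by
    have h2 : 0 ≤ (2 : ℝ) ^ d * (w ^ d * (1 / Real.sqrt m) ^ d) := by positivity
    have h3 : 0 ≤ (1 / Real.sqrt c) ^ d * (1 / (M : ℝ)) ^ d := by positivity
    linarith [h2, h3, add_mul ((2 : ℝ) ^ d) ((1 / Real.sqrt c) ^ d)
      ((1 / (M : ℝ)) ^ d + w ^ d * (1 / Real.sqrt m) ^ d),
      mul_add ((2 : ℝ) ^ d) ((1 / (M : ℝ)) ^ d) (w ^ d * (1 / Real.sqrt m) ^ d),
      mul_add ((1 / Real.sqrt c) ^ d) ((1 / (M : ℝ)) ^ d) (w ^ d * (1 / Real.sqrt m) ^ d)]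
  rw [e1, e2]
  calc θ ^ m * B * (2 ^ d * (2 ^ d * (1 / (M : ℝ)) ^ d +
        (1 / Real.sqrt c) ^ d * (w ^ d * (1 / Real.sqrt m) ^ d)))
      ≤ θ ^ m * B * (2 ^ d * ((2 ^ d + (1 / Real.sqrt c) ^ d) *
          ((1 / (M : ℝ)) ^ d + w ^ d * (1 / Real.sqrt m) ^ d))) := by
        apply mul_le_mul_of_nonneg_left _ (by positivity)
        exact mul_le_mul_of_nonneg_left e4 (by positivity)
    _ = C1 d c * ((𝒜.card : ℝ) ^ 2 * ((L : ℝ) ^ d) ^ 2) *
      (θ ^ m * ((1 / (M : ℝ)) ^ d + w ^ d * (1 / Real.sqrt m) ^ d)) := by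
        rw [e3]
        unfold C1
        ring

end Pool.Agent.LE.QD.H81
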